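import Pool.Agent.H20.T4.Stm
import Pool.Agent.H9.TC.Basic
import Pool.Agent.H30.T4.B5

/-!
Project TM4 (MP_b6022c_nt), row (B2): density of `Bad2` in a block.
-/

namespace Pool.Agent.H2.T4

open Finset Pool.Agent.H9.TC Pool.Agent.H20.TM Pool.Agent.H20.T4 Pool.Agent.H30.T4

/-- The number of integers of absolute value at most `2^a`. -/
theorem card_Icc_pow (a : ℕ) : (Icc (-(2 : ℤ) ^ a) (2 ^ a)).card ≤ 2 ^ (a + 2) := by
  rw [Int.card_Icc, Int.toNat_le]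
  push_cast
  have h1 : (1 : ℤ) ≤ 2 ^ a := one_le_pow₀ (by norm_num)
  have h2 : (2 : ℤ) ^ (a + 2) = 4 * 2 ^ a := by ring
  rw [h2]
  linarith

theorem card_Icc_K (a : ℕ) : (Icc (-(2 * (4 : ℤ) ^ a)) (2 * 4 ^ a)).card ≤ 2 ^ (2 * a + 3) := by
  rw [Int.card_Icc, Int.toNat_le]
  push_cast
  have e : (2 : ℤ) ^ (2 * a + 3) = 8 * 4 ^ a := by
    rw [pow_add, pow_mul]; norm_num; ring
  have h1 : (1 : ℤ) ≤ 4 ^ a := one_le_pow₀ (by norm_num)
  rw [e]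
  linarith

/-- The leading coefficient is not divisible by a large power of two. -/
theorem ndvd_coef {c L k t a b d : ℕ} {As K : ℤ} (hc : 1 ≤ c) (hk1 : 1 ≤ k) (hk : k < 2 ^ a)
    (ht1 : 1 ≤ t) (ht : t < 2 ^ b) (hKd : ¬ (2 : ℤ) ^ L ∣ K) (hd : L ≤ d) :
    ¬ (2 : ℤ) ^ (5 + a + c + b + L) ∣ 24 * k * c * t * (2 ^ d * As + K) := by
  refine ndvd_mul (ndvd_mul (ndvd_mul (ndvd_mul (a := 5) ?_ ?_) ?_) ?_) ?_
  · refine ndvd_of_abs_lt (by norm_num) ?_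
    norm_num
  · refine ndvd_of_abs_lt (by positivity) ?_
    rw [abs_of_nonneg (by positivity)]
    exact_mod_cast hk
  · refine ndvd_of_abs_lt (by positivity) ?_
    rw [abs_of_nonneg (by positivity)]
    exact_mod_cast Nat.lt_two_pow_self
  · refine ndvd_of_abs_lt (by positivity) ?_
    rw [abs_of_nonneg (by positivity)]
    exact_mod_cast ht
  · intro h
    apply hKd
    have h1 : (2 : ℤ) ^ L ∣ 2 ^ d * As := (pow_dvd_pow 2 hd).mul_right _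
    exact (dvd_add_right h1).1 h

theorem b2 (hLIN : LINStmt) : B2Stmt := by
  classical
  intro q c L g9 hq hc hL1
  refine ⟨2 * (L + g9) + c + L + 20, ?_⟩
  intro p hp v uf sb κh κt D β hv huf h1 h2 n1
  have e60 : (60 * q + 60) * p = (4 * q + 4) * p + (10 * q + 10) * p + (14 * q + 21) * p +
      (6 * q + 5) * p + (20 * q + 15) * p + (6 * q + 5) * p := by ring
  have e6 : (6 * q + 5) * p = (4 * q + 3) * p + (2 * q + 2) * p := by ring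
  have e14 : (14 * q + 21) * p = (4 * q + 3) * p + (2 * q + 2) * p + (2 * q + 4) * p +
      (2 * q + 4) * p + (2 * q + 4) * p + (2 * q + 4) * p := by ring
  have hqp : p ≤ (20 * q + 15) * p := Nat.le_mul_of_pos_left p (by omega)
  obtain ⟨I, hI⟩ : ∃ I : Finset (ℕ × ℕ × ℤ × ℤ × ℤ × ℤ × ℤ), I =
    (range (2 ^ ((4 * q + 3) * p)) ×ˢ range (2 ^ ((2 * q + 2) * p)) ×ˢ
      Icc (-(2 : ℤ) ^ ((2 * q + 4) * p)) (2 ^ ((2 * q + 4) * p)) ×ˢ
      Icc (-(2 * (4 : ℤ) ^ (L + g9))) (2 * 4 ^ (L + g9)) ×ˢ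
      Icc (-(2 : ℤ) ^ (κh + (2 * q + 4) * p)) (2 ^ (κh + (2 * q + 4) * p)) ×ˢ
      Icc (-(2 : ℤ) ^ (κt + (2 * q + 4) * p)) (2 ^ (κt + (2 * q + 4) * p)) ×ˢ
      Icc (-(2 : ℤ) ^ ((2 * q + 4) * p)) (2 ^ ((2 * q + 4) * p))).filter
    (fun z => 1 ≤ z.1 ∧ 1 ≤ z.2.1 ∧ ¬ (2 : ℤ) ^ L ∣ z.2.2.2.1) := ⟨_, rfl⟩
  obtain ⟨Y, hY⟩ : ∃ Y : ℕ × ℕ × ℤ × ℤ × ℤ × ℤ × ℤ → ℤ, ∀ k t As K Hs Ts Ds,
      Y (k, t, As, K, Hs, Ts, Ds) = 24 * (k : ℤ) * c * t * (2 ^ (uf + L - v) * As + K) :=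
    ⟨fun z => 24 * (z.1 : ℤ) * c * z.2.1 * (2 ^ (uf + L - v) * z.2.2.1 + z.2.2.2.1),
      fun _ _ _ _ _ _ _ => rfl⟩
  obtain ⟨Y0, hY0⟩ : ∃ Y0 : ℕ × ℕ × ℤ × ℤ × ℤ × ℤ × ℤ → ℤ, ∀ k t As K Hs Ts Ds,
      Y0 (k, t, As, K, Hs, Ts, Ds) = 2 * (k : ℤ) * t *
        (2 ^ (uf + L - v) * (12 * c * (Hs + D * Ts) + 3 * Ds)) :=
    ⟨fun z => 2 * (z.1 : ℤ) * z.2.1 * (2 ^ (uf + L - v) *
      (12 * c * (z.2.2.2.2.1 + D * z.2.2.2.2.2.1) + 3 * z.2.2.2.2.2.2)),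
      fun _ _ _ _ _ _ _ => rfl⟩
  obtain ⟨W, hW⟩ : ∃ W : ℤ, W = 2 ^ (uf + L + (4 * q + 4) * p - sb) := ⟨_, rfl⟩
  have hA1 : cnt (2 ^ β) (fun b => Bad2 q c L g9 p v uf sb κh κt D (n1 + b)) ≤
      cnt (2 ^ β) (fun b => ∃ z ∈ I, small (uf + L) W ((n1 + b) * Y z + Y0 z)) := by
    refine cnt_mono ?_
    rintro b _ ⟨k, t, As, K, Hs, Ts, Ds, hk1, hk, ht1, ht, hAs, hK, hKd, hHs, hTs, hDs, hs⟩
    refine ⟨(k, t, As, K, Hs, Ts, Ds), ?_, ?_⟩
    · rw [hI, mem_filter]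
      simp only [mem_product, mem_range, mem_Icc]
      rw [abs_le] at hAs hK hHs hTs hDs
      exact ⟨⟨hk, ht, hAs, hK, hHs, hTs, hDs⟩, hk1, ht1, hKd⟩
    · rw [hY, hY0, hW]
      have e : (n1 + (b : ℤ)) * (24 * (k : ℤ) * c * t * (2 ^ (uf + L - v) * As + K)) +
          2 * (k : ℤ) * t * (2 ^ (uf + L - v) * (12 * c * (Hs + D * Ts) + 3 * Ds)) =
          2 * k * t * (2 ^ (uf + L - v) * (12 * c * ((n1 + b) * As + Hs + D * Ts) + 3 * Ds)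
            + 12 * c * K * (n1 + b)) := by ring
      rw [e]
      exact hs
  have hA2 := cnt_exists (2 ^ β) I (fun z b => small (uf + L) W ((n1 + b) * Y z + Y0 z))
  have hA3 : ∀ z ∈ I, (cnt (2 ^ β) (fun b => small (uf + L) W ((n1 + b) * Y z + Y0 z)) : ℝ) *
      2 ^ (κh + κt + (14 * q + 21) * p + (2 * (L + g9) + 11) + (10 * q + 10) * p) ≤ 2 ^ β := by
    rintro ⟨k, t, As, K, Hs, Ts, Ds⟩ hz
    rw [hI, mem_filter] at hz
    simp only [mem_product, mem_range, mem_Icc] at hz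
    obtain ⟨⟨hk, ht, -⟩, hk1, ht1, hKd⟩ := hz
    have hnd := ndvd_coef (As := As) hc hk1 hk ht1 ht hKd (d := uf + L - v) (by omega)
    have hW0 : 0 ≤ W := by rw [hW]; positivity
    have h4 := hLIN (Y (k, t, As, K, Hs, Ts, Ds)) (Y0 (k, t, As, K, Hs, Ts, Ds)) n1 (uf + L)
      (5 + (4 * q + 3) * p + c + (2 * q + 2) * p + L) β W (by rw [hY]; exact hnd)
      (by omega) huf hW0
    obtain ⟨CN, hCN⟩ : ∃ CN : ℝ, CN = (cnt (2 ^ β) (fun b => small (uf + L) W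
      ((n1 + b) * Y (k, t, As, K, Hs, Ts, Ds) + Y0 (k, t, As, K, Hs, Ts, Ds))) : ℝ) := ⟨_, rfl⟩
    rw [← hCN] at h4 ⊢
    have hWr : (W : ℝ) = 2 ^ (uf + L + (4 * q + 4) * p - sb) := by rw [hW]; push_cast; rfl
    rw [hWr] at h4
    have hE : (0 : ℝ) < 2 ^ (uf + L) := by positivity
    obtain ⟨G, hG⟩ : ∃ G : ℕ, G = κh + κt + (14 * q + 21) * p + (2 * (L + g9) + 11) +
      (10 * q + 10) * p := ⟨_, rfl⟩
    rw [← hG]
    have h5 : (2 : ℝ) ^ G * (2 * 2 ^ (uf + L + (4 * q + 4) * p - sb) * 2) ≤ 2 ^ (uf + L) := by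
      have : (2 : ℝ) ^ G * (2 * 2 ^ (uf + L + (4 * q + 4) * p - sb) * 2) =
        2 ^ (G + (uf + L + (4 * q + 4) * p - sb) + 2) := by
        rw [pow_add, pow_add]; ring
      rw [this]
      exact pow_le_pow_right₀ (by norm_num) (by omega)
    have h6 : (2 : ℝ) ^ G * 4 ≤ 2 ^ (uf + L) := by
      have : (2 : ℝ) ^ G * 4 = 2 ^ (G + 2) := by rw [pow_add]; norm_num
      rw [this]
      exact pow_le_pow_right₀ (by norm_num) (by omega)
    have h7 : (2 : ℝ) ^ G * (2 ^ (5 + (4 * q + 3) * p + c + (2 * q + 2) * p + L) * 4) ≤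
        2 ^ (uf + L) := by
      have : (2 : ℝ) ^ G * (2 ^ (5 + (4 * q + 3) * p + c + (2 * q + 2) * p + L) * 4) =
        2 ^ (G + (5 + (4 * q + 3) * p + c + (2 * q + 2) * p + L) + 2) := by
        rw [pow_add, pow_add _ _ 2]; ring
      rw [this]
      exact pow_le_pow_right₀ (by norm_num) (by omega)
    have h9 : CN * 2 ^ G * 2 ^ (uf + L) ≤ 2 ^ β * 2 ^ (uf + L) := by
      calc CN * 2 ^ G * 2 ^ (uf + L) = (CN * 2 ^ (uf + L)) * 2 ^ G := by ring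
        _ ≤ (2 ^ β * (2 * 2 ^ (uf + L + (4 * q + 4) * p - sb) + 1 +
            2 ^ (5 + (4 * q + 3) * p + c + (2 * q + 2) * p + L))) * 2 ^ G :=
            mul_le_mul_of_nonneg_right h4 (by positivity)
        _ = 2 ^ β * (2 ^ G * (2 * 2 ^ (uf + L + (4 * q + 4) * p - sb)) + 2 ^ G +
            2 ^ G * 2 ^ (5 + (4 * q + 3) * p + c + (2 * q + 2) * p + L)) := by ring
        _ ≤ 2 ^ β * 2 ^ (uf + L) := by
            refine mul_le_mul_of_nonneg_left ?_ (by positivity)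
            nlinarith
    exact le_of_mul_le_mul_right h9 hE
  have hcard : (I.card : ℝ) ≤ 2 ^ (κh + κt + (14 * q + 21) * p + (2 * (L + g9) + 11)) := by
    have hc1 : I.card ≤ 2 ^ ((4 * q + 3) * p) * (2 ^ ((2 * q + 2) * p) *
        (2 ^ ((2 * q + 4) * p + 2) * (2 ^ (2 * (L + g9) + 3) *
        (2 ^ (κh + (2 * q + 4) * p + 2) * (2 ^ (κt + (2 * q + 4) * p + 2) *
        2 ^ ((2 * q + 4) * p + 2)))))) := by
      rw [hI]
      refine (card_filter_le _ _).trans ?_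
      rw [card_product, card_product, card_product, card_product, card_product, card_product,
        card_range, card_range]
      gcongr
      · exact card_Icc_pow _
      · exact card_Icc_K _
      · exact card_Icc_pow _
      · exact card_Icc_pow _
      · exact card_Icc_pow _
    have hc2 : 2 ^ ((4 * q + 3) * p) * (2 ^ ((2 * q + 2) * p) *
        (2 ^ ((2 * q + 4) * p + 2) * (2 ^ (2 * (L + g9) + 3) *
        (2 ^ (κh + (2 * q + 4) * p + 2) * (2 ^ (κt + (2 * q + 4) * p + 2) *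
        2 ^ ((2 * q + 4) * p + 2)))))) =
        2 ^ (κh + κt + (14 * q + 21) * p + (2 * (L + g9) + 11)) := by
      rw [← pow_add, ← pow_add, ← pow_add, ← pow_add, ← pow_add, ← pow_add]
      congr 1
      omega
    rw [hc2] at hc1
    exact_mod_cast hc1
  have hsum : (cnt (2 ^ β) (fun b => Bad2 q c L g9 p v uf sb κh κt D (n1 + b)) : ℝ) ≤
      ∑ z ∈ I, (cnt (2 ^ β) (fun b => small (uf + L) W ((n1 + b) * Y z + Y0 z)) : ℝ) := by
    exact_mod_cast hA1.trans hA2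
  have hP : (0 : ℝ) < 2 ^ (κh + κt + (14 * q + 21) * p + (2 * (L + g9) + 11)) := by positivity
  refine le_of_mul_le_mul_right ?_ hP
  calc (cnt (2 ^ β) (fun b => Bad2 q c L g9 p v uf sb κh κt D (n1 + b)) : ℝ) *
        2 ^ ((10 * q + 10) * p) * 2 ^ (κh + κt + (14 * q + 21) * p + (2 * (L + g9) + 11))
      = (cnt (2 ^ β) (fun b => Bad2 q c L g9 p v uf sb κh κt D (n1 + b)) : ℝ) *
        2 ^ (κh + κt + (14 * q + 21) * p + (2 * (L + g9) + 11) + (10 * q + 10) * p) := by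
        rw [pow_add _ _ ((10 * q + 10) * p)]; ring
    _ ≤ (∑ z ∈ I, (cnt (2 ^ β) (fun b => small (uf + L) W ((n1 + b) * Y z + Y0 z)) : ℝ)) *
        2 ^ (κh + κt + (14 * q + 21) * p + (2 * (L + g9) + 11) + (10 * q + 10) * p) :=
        mul_le_mul_of_nonneg_right hsum (by positivity)
    _ = ∑ z ∈ I, (cnt (2 ^ β) (fun b => small (uf + L) W ((n1 + b) * Y z + Y0 z)) : ℝ) *
        2 ^ (κh + κt + (14 * q + 21) * p + (2 * (L + g9) + 11) + (10 * q + 10) * p) := by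
        rw [sum_mul]
    _ ≤ ∑ z ∈ I, (2 : ℝ) ^ β := sum_le_sum hA3
    _ = (I.card : ℝ) * 2 ^ β := by rw [sum_const, nsmul_eq_mul]
    _ ≤ 2 ^ (κh + κt + (14 * q + 21) * p + (2 * (L + g9) + 11)) * 2 ^ β :=
        mul_le_mul_of_nonneg_right hcard (by positivity)
    _ = _ := by ring

end Pool.Agent.H2.T4
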